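import Mathlib

namespace Pool.Agent.Results.MP_ced6ff_co.DoublingMonotone

open Matrix

/-- Hadamard matrix of order `n`: entries `±1` and `H Hᵀ = n I`. -/
def IsHadamard {n : ℕ} (H : Matrix (Fin n) (Fin n) ℤ) : Prop :=
  (∀ i j, H i j = 1 ∨ H i j = -1) ∧ H * Hᵀ = (n : ℤ) • (1 : Matrix (Fin n) (Fin n) ℤ)

/-- `H'` is obtained from `H` by permuting rows and columns and multiplying rows and columns
by signs `±1` (the units of `ℤ`). -/
def HadEquiv {n : ℕ} (H H' : Matrix (Fin n) (Fin n) ℤ) : Prop :=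
  ∃ (σ τ : Equiv.Perm (Fin n)) (r c : Fin n → ℤˣ),
    ∀ i j, H' i j = (r i : ℤ) * (c j : ℤ) * H (σ i) (τ j)

/-- The number of equivalence classes of Hadamard matrices of order `n`. -/
noncomputable def numClasses (n : ℕ) : ℕ :=
  Nat.card (Quot (fun H H' : {H : Matrix (Fin n) (Fin n) ℤ // IsHadamard H} => HadEquiv H.1 H'.1))

section W
variable {X Y A B A' B' : Type} [Fintype X] [Fintype Y] [DecidableEq X] [DecidableEq Y]
  [Fintype A] [Fintype B] [Fintype A'] [Fintype B']

def W (F : Finset (X × Y)) (K : A → B → ℤ) : ℤ :=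
  ∑ φ : X → A, ∑ ψ : Y → B, ∏ p ∈ F, K (φ p.1) (ψ p.2)

theorem W_equiv (F : Finset (X × Y)) (e : A ≃ A') (f : B ≃ B') (K : A → B → ℤ)
    (K' : A' → B' → ℤ) (h : ∀ a b, K' (e a) (f b) = K a b) : W F K = W F K' := by
  unfold W
  refine Fintype.sum_equiv (Equiv.arrowCongr (Equiv.refl X) e) _ _ (fun φ => ?_)
  refine Fintype.sum_equiv (Equiv.arrowCongr (Equiv.refl Y) f) _ _ (fun ψ => ?_)
  refine Finset.prod_congr rfl (fun p _ => ?_)
  simp [h]

theorem W_prod (F : Finset (X × Y)) (K : A → B → ℤ) (K' : A' → B' → ℤ) :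
    W F (fun (a : A × A') (b : B × B') => K a.1 b.1 * K' a.2 b.2) = W F K * W F K' := by
  unfold W
  symm
  rw [Finset.sum_mul_sum, ← Fintype.sum_prod_type']
  refine Fintype.sum_equiv (M := ℤ)
    (Equiv.arrowProdEquivProdArrow X (fun _ => A) (fun _ => A')).symm _ _ (fun φ => ?_)
  rw [Finset.sum_mul_sum, ← Fintype.sum_prod_type']
  refine Fintype.sum_equiv (M := ℤ)
    (Equiv.arrowProdEquivProdArrow Y (fun _ => B) (fun _ => B')).symm _ _ (fun ψ => ?_)
  rw [Finset.prod_mul_distrib]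
  rfl

def S (i j : Fin 2) : ℤ := if i = 1 ∧ j = 1 then -1 else 1

theorem W_S_pos (F : Finset (X × Y)) : 0 < W F S := by
  unfold W
  have key : ∀ φ : X → Fin 2, ∑ ψ : Y → Fin 2, ∏ p ∈ F, S (φ p.1) (ψ p.2) =
      ∏ y : Y, ∑ j : Fin 2, ∏ p ∈ F.filter (fun p => p.2 = y), S (φ p.1) j := by
    intro φ
    rw [Finset.prod_univ_sum]
    simp only [Fintype.piFinset_univ]
    refine Finset.sum_congr rfl (fun ψ _ => ?_)
    rw [← Finset.prod_fiberwise F (fun p => p.2)]
    refine Finset.prod_congr rfl (fun y _ => Finset.prod_congr rfl (fun p hp => ?_))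
    rw [(Finset.mem_filter.mp hp).2]
  have h0 : ∀ (G : Finset (X × Y)) (φ : X → Fin 2), ∏ p ∈ G, S (φ p.1) 0 = 1 := by
    intro G φ
    exact Finset.prod_eq_one (fun p _ => by simp [S])
  have h1 : ∀ (G : Finset (X × Y)) (φ : X → Fin 2), -1 ≤ ∏ p ∈ G, S (φ p.1) 1 := by
    intro G φ
    have : |∏ p ∈ G, S (φ p.1) 1| = 1 := by
      rw [Finset.abs_prod]
      refine Finset.prod_eq_one (fun p _ => ?_)
      unfold S; split_ifs <;> simp
    have := neg_abs_le (∏ p ∈ G, S (φ p.1) 1)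
    omega
  apply Finset.sum_pos'
  · intro φ _
    rw [key]
    refine Finset.prod_nonneg (fun y _ => ?_)
    rw [Fin.sum_univ_two, h0]
    have := h1 (F.filter (fun p => p.2 = y)) φ
    omega
  · refine ⟨fun _ => 0, Finset.mem_univ _, ?_⟩
    rw [key (fun _ => 0)]
    refine Finset.prod_pos (fun y _ => ?_)
    rw [Fin.sum_univ_two]
    simp [S]

theorem count (T : X → Y → ℤ) (K : A → B → ℤ) :
    ∑ F ∈ (Finset.univ : Finset (X × Y)).powerset, (∏ p ∈ F, T p.1 p.2) * W F K =
      ∑ φ : X → A, ∑ ψ : Y → B, ∏ p : X × Y, (1 + T p.1 p.2 * K (φ p.1) (ψ p.2)) := by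
  unfold W
  simp only [Finset.prod_one_add, Finset.mul_sum, Finset.prod_mul_distrib]
  rw [Finset.sum_comm]
  refine Finset.sum_congr rfl (fun φ _ => ?_)
  rw [Finset.sum_comm]

def cover (K : A → B → ℤ) (a : A × ℤˣ) (b : B × ℤˣ) : ℤ :=
  K a.1 b.1 * ((a.2 : ℤ) * (b.2 : ℤ))

end W

theorem inv_equiv {X Y : Type} [Fintype X] [Fintype Y] [DecidableEq X] [DecidableEq Y]
    (F : Finset (X × Y)) {n : ℕ} (H H' : Matrix (Fin n) (Fin n) ℤ) (h : HadEquiv H H') :
    W F (cover H) = W F (cover H') := by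
  obtain ⟨σ, τ, r, c, h⟩ := h
  symm
  refine W_equiv F (Equiv.prodShear σ (fun i => Equiv.mulLeft (r i)))
    (Equiv.prodShear τ (fun i => Equiv.mulLeft (c i))) _ _ (fun a b => ?_)
  simp only [cover, Equiv.prodShear_apply, Equiv.coe_mulLeft, Units.val_mul, h]
  ring

def dbl {n : ℕ} (H : Matrix (Fin n) (Fin n) ℤ) : Matrix (Fin (2 * n)) (Fin (2 * n)) ℤ :=
  fun i j => S (finProdFinEquiv.symm i).1 (finProdFinEquiv.symm j).1 *
    H (finProdFinEquiv.symm i).2 (finProdFinEquiv.symm j).2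

theorem inv_dbl {X Y : Type} [Fintype X] [Fintype Y] [DecidableEq X] [DecidableEq Y]
    (F : Finset (X × Y)) {n : ℕ} (H : Matrix (Fin n) (Fin n) ℤ) :
    W F (cover (dbl H)) = W F S * W F (cover H) := by
  rw [← W_prod]
  refine W_equiv F
    ((Equiv.prodCongr finProdFinEquiv.symm (Equiv.refl ℤˣ)).trans (Equiv.prodAssoc _ _ _))
    ((Equiv.prodCongr finProdFinEquiv.symm (Equiv.refl ℤˣ)).trans (Equiv.prodAssoc _ _ _))
    _ _ (fun a b => ?_)
  simp only [cover, dbl, Equiv.trans_apply, Equiv.prodCongr_apply, Equiv.prodAssoc_apply,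
    Prod.map_fst, Prod.map_snd, Equiv.refl_apply]
  ring

theorem dbl_had {n : ℕ} (H : Matrix (Fin n) (Fin n) ℤ) (h : IsHadamard H) :
    IsHadamard (dbl H) := by
  obtain ⟨h1, h2⟩ := h
  constructor
  · intro i j
    unfold dbl S
    rcases h1 (finProdFinEquiv.symm i).2 (finProdFinEquiv.symm j).2 with h | h <;>
      rw [h] <;> split_ifs <;> simp
  · ext i j
    obtain ⟨⟨a, x⟩, rfl⟩ := finProdFinEquiv.surjective i
    obtain ⟨⟨b, y⟩, rfl⟩ := finProdFinEquiv.surjective j
    have hxy := congrFun (congrFun h2 x) y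
    rw [Matrix.mul_apply] at hxy ⊢
    rw [← finProdFinEquiv.sum_comp, Fintype.sum_prod_type]
    simp only [dbl, Matrix.transpose_apply, Equiv.symm_apply_apply] at hxy ⊢
    have : ∀ k : Fin 2, ∑ z : Fin n, S a k * H x z * (S b k * H y z) =
        S a k * S b k * ∑ z : Fin n, H x z * H y z := by
      intro k
      rw [Finset.mul_sum]
      exact Finset.sum_congr rfl (fun z _ => by ring)
    simp only [this, hxy, Matrix.smul_apply, Matrix.one_apply, EmbeddingLike.apply_eq_iff_eq,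
      Prod.mk.injEq, Fin.sum_univ_two, smul_eq_mul]
    by_cases hxy' : x = y
    · fin_cases a <;> fin_cases b <;> simp [S, hxy'] <;> ring
    · simp [hxy']

theorem equiv_of_inv {n : ℕ} (hn : 1 ≤ n) (H H' : Matrix (Fin n) (Fin n) ℤ) (h : IsHadamard H)
    (h' : IsHadamard H')
    (hW : ∀ F : Finset (Fin n × Fin n), W F (cover H) = W F (cover H')) : HadEquiv H' H := by
  have hu : ∀ u : ℤˣ, (u : ℤ) = 1 ∨ (u : ℤ) = -1 := fun u => by
    rcases Int.units_eq_one_or u with h | h <;> simp [h]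
  have hc : ∀ (K : Matrix (Fin n) (Fin n) ℤ), IsHadamard K → ∀ a b,
      cover K a b = 1 ∨ cover K a b = -1 := by
    intro K hK a b
    unfold cover
    rcases hK.1 a.1 b.1 with h1 | h1 <;> rcases hu a.2 with h2 | h2 <;>
      rcases hu b.2 with h3 | h3 <;> simp [h1, h2, h3]
  have hpos : 0 < ∑ φ : Fin n → Fin n × ℤˣ, ∑ ψ : Fin n → Fin n × ℤˣ,
      ∏ p : Fin n × Fin n, (1 + H p.1 p.2 * cover H (φ p.1) (ψ p.2)) := by
    have hnn : ∀ (φ : Fin n → Fin n × ℤˣ) (ψ : Fin n → Fin n × ℤˣ),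
        0 ≤ ∏ p : Fin n × Fin n, (1 + H p.1 p.2 * cover H (φ p.1) (ψ p.2)) := by
      intro φ ψ
      refine Finset.prod_nonneg (fun p _ => ?_)
      rcases h.1 p.1 p.2 with h1 | h1 <;> rcases hc H h (φ p.1) (ψ p.2) with h2 | h2 <;>
        simp [h1, h2]
    apply Finset.sum_pos' (fun φ _ => Finset.sum_nonneg (fun ψ _ => hnn φ ψ))
    refine ⟨fun i => (i, 1), Finset.mem_univ _, ?_⟩
    apply Finset.sum_pos' (fun ψ _ => hnn (fun i => (i, 1)) ψ)
    refine ⟨fun i => (i, 1), Finset.mem_univ _, ?_⟩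
    refine Finset.prod_pos (fun p _ => ?_)
    rcases h.1 p.1 p.2 with h1 | h1 <;> simp [cover, h1]
  rw [← count H (cover H)] at hpos
  simp only [hW] at hpos
  rw [count H (cover H')] at hpos
  obtain ⟨φ, -, hφ⟩ := Finset.exists_ne_zero_of_sum_ne_zero hpos.ne'
  obtain ⟨ψ, -, hψ⟩ := Finset.exists_ne_zero_of_sum_ne_zero hφ
  rw [Finset.prod_ne_zero_iff] at hψ
  have heq : ∀ i j, H i j = cover H' (φ i) (ψ j) := by
    intro i j
    have := hψ (i, j) (Finset.mem_univ _)
    rcases h.1 i j with h1 | h1 <;> rcases hc H' h' (φ i) (ψ j) with h2 | h2 <;>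
      simp [h1, h2] at this ⊢
  have hdet : H.det ≠ 0 := by
    intro h0
    have := congrArg Matrix.det h.2
    rw [Matrix.det_mul, h0, Matrix.det_smul] at this
    simp only [zero_mul, Fintype.card_fin, Matrix.det_one, mul_one] at this
    have h5 : (n : ℤ) ≠ 0 := by omega
    exact pow_ne_zero n h5 this.symm
  let M : Matrix (Fin n) (Fin n) ℤ := Matrix.of fun i j => H' (φ i).1 (ψ j).1
  have hM : H = Matrix.diagonal (fun i => ((φ i).2 : ℤ)) * M *
      Matrix.diagonal (fun j => ((ψ j).2 : ℤ)) := by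
    ext i j
    rw [Matrix.mul_diagonal, Matrix.diagonal_mul, heq]
    simp only [cover, M, Matrix.of_apply]
    ring
  have hMdet : M.det ≠ 0 := by
    intro h0
    apply hdet
    rw [hM, Matrix.det_mul, Matrix.det_mul, h0]
    simp
  have hφi : Function.Injective (fun i => (φ i).1) := by
    intro i i' hii
    by_contra hne
    apply hMdet
    refine Matrix.det_zero_of_row_eq hne ?_
    ext j
    simp only [M, Matrix.of_apply]
    rw [show (φ i).1 = (φ i').1 from hii]
  have hψi : Function.Injective (fun i => (ψ i).1) := by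
    intro i i' hii
    by_contra hne
    apply hMdet
    refine Matrix.det_zero_of_column_eq hne ?_
    intro j
    simp only [M, Matrix.of_apply]
    rw [show (ψ i).1 = (ψ i').1 from hii]
  refine ⟨Equiv.ofBijective _ (Finite.injective_iff_bijective.mp hφi),
    Equiv.ofBijective _ (Finite.injective_iff_bijective.mp hψi),
    fun i => (φ i).2, fun j => (ψ j).2, fun i j => ?_⟩
  rw [heq]
  simp only [cover, Equiv.ofBijective_apply]
  ring

theorem fin_had (n : ℕ) : Finite {H : Matrix (Fin n) (Fin n) ℤ // IsHadamard H} := by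
  refine Finite.of_injective
    (fun H : {H : Matrix (Fin n) (Fin n) ℤ // IsHadamard H} =>
      (fun i j => decide (H.1 i j = 1) : Fin n → Fin n → Bool)) ?_
  intro H H' hh
  apply Subtype.ext
  ext i j
  have := congrFun (congrFun hh i) j
  rcases H.2.1 i j with h1 | h1 <;> rcases H'.2.1 i j with h2 | h2 <;> simp [h1, h2] at this ⊢

theorem result : ∀ n : ℕ, 1 ≤ n → numClasses n ≤ numClasses (2 * n) := by
  intro n hn
  unfold numClasses
  have := fin_had (2 * n)
  refine Nat.card_le_card_of_injective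
    (fun q => Quot.mk _ ⟨dbl q.out.1, dbl_had _ q.out.2⟩) ?_
  intro q q' hq
  have hinv : ∀ F : Finset (Fin n × Fin n),
      W F (cover (dbl q.out.1)) = W F (cover (dbl q'.out.1)) := by
    intro F
    exact congrArg (Quot.lift
      (fun H : {H : Matrix (Fin (2 * n)) (Fin (2 * n)) ℤ // IsHadamard H} => W F (cover H.1))
      (fun H H' hh => inv_equiv F H.1 H'.1 hh)) hq
  have hW : ∀ F : Finset (Fin n × Fin n), W F (cover q.out.1) = W F (cover q'.out.1) := by
    intro F
    have := hinv F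
    rw [inv_dbl, inv_dbl] at this
    exact mul_left_cancel₀ (W_S_pos F).ne' this
  have := equiv_of_inv hn _ _ q.out.2 q'.out.2 hW
  rw [← Quot.out_eq q, ← Quot.out_eq q']
  symm
  exact Quot.sound this

end Pool.Agent.Results.MP_ced6ff_co.DoublingMonotone
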